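import Pool.Agent.Helper24.HW.Stmts

/-! Module GCD of hw_mods: the sum of the numbers of special vertices. -/

set_option autoImplicit false

namespace Pool.Agent.Helper72.HW

open Equiv Equiv.Perm Pool.Agent.Helper24.HW Pool.Agent.Helper24.HWPub Pool.Agent.Helper98.Gn

theorem gl (N : ℕ) (hN : 0 < N) (v c u w : ℤ) (h : c * v = u * N + w) (hw : w ≠ 0) :
    N / addOrderOf ((v : ℤ) : ZMod N) ≤ w.natAbs := by
  set o := addOrderOf ((v : ℤ) : ZMod N) with ho
  have h1 : o ∣ N := by
    apply addOrderOf_dvd_of_nsmul_eq_zero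
    rw [nsmul_eq_mul, ZMod.natCast_self, zero_mul]
  obtain ⟨d, hd⟩ := h1
  have ho0 : 0 < o := Nat.pos_of_ne_zero (by rintro h0; rw [h0, zero_mul] at hd; omega)
  have h2 : N / o = d := by rw [hd]; exact Nat.mul_div_cancel_left d ho0
  rw [h2]
  have h3 : (N : ℤ) ∣ o * v := by
    have h4 : o • ((v : ℤ) : ZMod N) = 0 := addOrderOf_nsmul_eq_zero _
    rw [nsmul_eq_mul] at h4
    apply (ZMod.intCast_zmod_eq_zero_iff_dvd ((o : ℤ) * v) N).1
    push_cast
    exact h4
  have h5 : (d : ℤ) ∣ v := by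
    rw [hd] at h3
    push_cast at h3
    exact Int.dvd_of_mul_dvd_mul_left (by omega) h3
  have h6 : (d : ℤ) ∣ N := by rw [hd]; push_cast; exact dvd_mul_left _ _
  have h7 : (d : ℤ) ∣ w := by
    have h8 : w = c * v - u * N := by linarith
    rw [h8]
    exact dvd_sub (dvd_mul_of_dvd_right h5 _) (dvd_mul_of_dvd_right h6 _)
  have h9 : d ∣ w.natAbs := by
    have := Int.natAbs_dvd_natAbs.2 h7
    simpa using this
  exact Nat.le_of_dvd (by omega) h9

theorem av_even (k j q : ℕ) : av k j (2 * q) = (k + j + 1 : ℤ) + q := by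
  unfold av
  have h1 : 2 * q % 2 = 0 := by omega
  have h2 : 2 * q / 2 = q := by omega
  rw [if_pos h1, h2]

theorem av_odd (k j q : ℕ) : av k j (2 * q + 1) = (2 * (k + j) + 1 : ℤ) - q := by
  unfold av
  have h1 : ¬ (2 * q + 1) % 2 = 0 := by omega
  have h2 : (2 * q + 1) / 2 = q := by omega
  rw [if_neg h1, h2]

variable (k j : ℕ)

theorem g0 : (6 * k + 4 * j + 5) / addOrderOf (((av k j 0 : ℤ)) : ZMod (6 * k + 4 * j + 5)) ≤
    2 * j + 1 := by
  have h0 : av k j 0 = (k + j + 1 : ℤ) + (0 : ℕ) := av_even k j 0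
  have h := gl (6 * k + 4 * j + 5) (by omega) (av k j 0) 6 1 (2 * j + 1)
    (by rw [h0]; push_cast; ring) (by omega)
  omega

theorem g1 : (6 * k + 4 * j + 5) /
    addOrderOf (((-av k j (k + j) : ℤ)) : ZMod (6 * k + 4 * j + 5)) ≤ 2 * j + 1 := by
  rcases Nat.even_or_odd' (k + j) with ⟨q, hq | hq⟩
  · have h0 : av k j (k + j) = (k + j + 1 : ℤ) + q := by
      conv_lhs => rw [hq]
      rw [av_even]
    have hq' : (k : ℤ) + j = 2 * q := by exact_mod_cast hq
    have h := gl (6 * k + 4 * j + 5) (by omega) (-av k j (k + j)) (-4) 1 (2 * j - 1)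
      (by rw [h0]; push_cast; linarith) (by omega)
    omega
  · have h0 : av k j (k + j) = (2 * (k + j) + 1 : ℤ) - q := by
      conv_lhs => rw [hq]
      rw [av_odd]
    have hq' : (k : ℤ) + j = 2 * q + 1 := by exact_mod_cast hq
    have h := gl (6 * k + 4 * j + 5) (by omega) (-av k j (k + j)) (-4) 1 (2 * j + 1)
      (by rw [h0]; push_cast; linarith) (by omega)
    omega

theorem g2 : (6 * k + 4 * j + 5) /
    addOrderOf (((-bv k j j : ℤ)) : ZMod (6 * k + 4 * j + 5)) ≤ 2 * j + 1 := by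
  rcases Nat.even_or_odd' j with ⟨q, hq | hq⟩
  · have h0 : bv k j j = 2 * k + 2 * j + 2 := by
      unfold bv
      have h1 : j / 2 = q := by omega
      have h2 : av k j j = (k + j + 1 : ℤ) + q := by
        conv_lhs => rw [hq]
        rw [av_even]
        omega
      rw [h1, h2]
      omega
    have h := gl (6 * k + 4 * j + 5) (by omega) (-bv k j j) (-3) 1 (2 * j + 1)
      (by rw [h0]; push_cast; linarith) (by omega)
    omega
  · have h0 : bv k j j = 3 * k + 2 * j + 2 := by
      unfold bv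
      have h1 : j / 2 = q := by omega
      have h2 : av k j j = (2 * (k + j) + 1 : ℤ) - q := by
        conv_lhs => rw [hq]
        rw [av_odd]
        omega
      rw [h1, h2]
      omega
    have h := gl (6 * k + 4 * j + 5) (by omega) (-bv k j j) (-2) 1 (-1)
      (by rw [h0]; push_cast; linarith) (by omega)
    omega

theorem g3 : (6 * k + 4 * j + 5) /
    addOrderOf (((bv k j (j + k) : ℤ)) : ZMod (6 * k + 4 * j + 5)) ≤ 4 * j + 5 := by
  rcases Nat.even_or_odd' j with ⟨q, hq | hq⟩ <;> rcases Nat.even_or_odd' k with ⟨r, hr | hr⟩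
  · have h0 : bv k j (j + k) = 2 * k + 2 * j + 2 + r := by
      unfold bv
      have h1 : j / 2 = q := by omega
      have h2 : av k j (j + k) = (k + j + 1 : ℤ) + (q + r : ℕ) := by
        rw [← av_even]
        congr 1
        omega
      rw [h1, h2]
      omega
    have h := gl (6 * k + 4 * j + 5) (by omega) (bv k j (j + k)) 12 5 (4 * j - 1)
      (by rw [h0]; push_cast; omega) (by omega)
    omega
  · have h0 : bv k j (j + k) = 3 * k + 2 * j + 2 - r := by
      unfold bv
      have h1 : j / 2 = q := by omega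
      have h2 : av k j (j + k) = (2 * (k + j) + 1 : ℤ) - (q + r : ℕ) := by
        rw [← av_odd]
        congr 1
        omega
      rw [h1, h2]
      omega
    have h := gl (6 * k + 4 * j + 5) (by omega) (bv k j (j + k)) 12 5 (4 * j + 5)
      (by rw [h0]; push_cast; omega) (by omega)
    omega
  · have h0 : bv k j (j + k) = 3 * k + 2 * j + 2 - r := by
      unfold bv
      have h1 : j / 2 = q := by omega
      have h2 : av k j (j + k) = (2 * (k + j) + 1 : ℤ) - (q + r : ℕ) := by
        rw [← av_odd]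
        congr 1
        omega
      rw [h1, h2]
      omega
    have h := gl (6 * k + 4 * j + 5) (by omega) (bv k j (j + k)) 12 5 (4 * j - 1)
      (by rw [h0]; push_cast; omega) (by omega)
    omega
  · have h0 : bv k j (j + k) = 2 * k + 2 * j + 2 + r := by
      unfold bv
      have h1 : j / 2 = q := by omega
      have h2 : av k j (j + k) = (k + j + 1 : ℤ) + (q + r + 1 : ℕ) := by
        rw [← av_even]
        congr 1
        omega
      rw [h1, h2]
      omega
    have h := gl (6 * k + 4 * j + 5) (by omega) (bv k j (j + k)) 12 5 (4 * j - 7)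
      (by rw [h0]; push_cast; omega) (by omega)
    omega

theorem gp (p : ℕ) : (6 * k + 4 * j + 5) /
    addOrderOf (((av k j (p + 1) - av k j p : ℤ)) : ZMod (6 * k + 4 * j + 5)) ≤
      (2 * j - 5 - 6 * p : ℤ).natAbs := by
  rcases Nat.even_or_odd' p with ⟨q, hq | hq⟩
  · have h1 : av k j (p + 1) - av k j p = k + j - p := by
      rw [hq, av_even, av_odd]
      push_cast
      ring
    apply gl (6 * k + 4 * j + 5) (by omega) _ 6 1 (2 * j - 5 - 6 * p) _ (by omega)
    rw [h1]
    push_cast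
    ring
  · have h1 : av k j (p + 1) - av k j p = -(k + j - p) := by
      have h2 : 2 * q + 1 + 1 = 2 * (q + 1) := by ring
      rw [hq, h2, av_even, av_odd]
      push_cast
      ring
    apply gl (6 * k + 4 * j + 5) (by omega) _ (-6) 1 (2 * j - 5 - 6 * p) _ (by omega)
    rw [h1]
    push_cast
    ring

theorem sumb : ∀ j ≤ 11, (∑ p : Fin j, (2 * (j : ℤ) - 5 - 6 * ((p : ℕ) : ℤ)).natAbs) +
    (2 * j + 1) + (2 * j + 1) + (2 * j + 1) + (4 * j + 5) ≤ 327 := by
  decide

theorem GCD : ST_GCD := by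
  intro k j hk hj
  rw [Fintype.sum_sum_type, Fin.sum_univ_four]
  have e0 := g0 k j
  have e1 := g1 k j
  have e2 := g2 k j
  have e3 := g3 k j
  have ep : ∑ p : Fin j, (6 * k + 4 * j + 5) / addOrderOf (cc k j (Sum.inr (Sum.inr (Sum.inl p))))
      ≤ ∑ p : Fin j, (2 * (j : ℤ) - 5 - 6 * ((p : ℕ) : ℤ)).natAbs :=
    Finset.sum_le_sum fun p _ => gp k j p
  have hs := sumb j hj
  change _ + ((6 * k + 4 * j + 5) / addOrderOf (((av k j 0 : ℤ)) : ZMod (6 * k + 4 * j + 5)) +
    (6 * k + 4 * j + 5) / addOrderOf (((-av k j (k + j) : ℤ)) : ZMod (6 * k + 4 * j + 5)) +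
    (6 * k + 4 * j + 5) / addOrderOf (((-bv k j j : ℤ)) : ZMod (6 * k + 4 * j + 5)) +
    (6 * k + 4 * j + 5) / addOrderOf (((bv k j (j + k) : ℤ)) : ZMod (6 * k + 4 * j + 5))) ≤ _
  omega

end Pool.Agent.Helper72.HW
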