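import Pool.Agent.Helper26.HW.Stmts
import Pool.Agent.Helper72.HV.MRZ

/-!
# Row MRZ0: the momentum far from the nuclei, any number of nuclei
-/

set_option autoImplicit false

namespace Pool.Agent.Helper72.HW

open MeasureTheory Filter Pool.Agent.Helper95 Pool.Agent.Helper95.PW Pool.Agent.Helper95.LN
  Pool.Agent.Helper95.CF Pool.Agent.Helper95.HV Pool.Agent.Helper26.HW
open Pool.Agent.Helper72.HV (mrz_A mrz_pd_sub mrz_pd_cd mrz_scale mrz_tri mrz_gm mrz_near_one)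

/-- the integrated upper bound of the second derivative -/
theorem mrz0_D2 (hDBS : ST_DBS) (hV2R : ST_V2R0) (hLOC : ST_LOCY) (hI : ST_INTM) (hAED : ST_AED)
    {K0 K1 : ℝ} (hK0 : 1 ≤ K0) (_hK1 : 1 ≤ K1)
    (hC : ∀ (m : Fin 3) (R : ℝ), 0 < R → Scale (gm m R) K0 R ∧ (∀ y, nr y ≤ R → gm m R y = y m))
    (hF : ∀ (M : ℕ) (X : Fin M → R3) (d ρ : ℝ) (m : Fin 3), 0 < d → Sep X d → 0 < ρ →
      ρ ≤ d / 4 → Scale (gN X m ρ) K1 ρ ∧
      (∀ j y, nr (y - X j) < ρ → ∀ i, pd i (gN X m ρ) y = if i = m then 1 else 0)) :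
    ∀ d : ℝ, 0 < d → d ≤ 1 → ∃ C3 C2 : ℝ, 0 < C3 ∧ 0 < C2 ∧ ∀ (z L : ℝ) (n M : ℕ)
    (X : Fin M → R3) (Z : Fin M → ℝ), Dat d z n X Z → 1 ≤ L →
    (∀ j, 2 * nr (X j) + 4 ≤ L) →
    (∀ m, Scale (fun y => gm m L y - gN X m (d / 8) y) (K0 + K1) (d / 8)) ∧
    ∀ u : Wf n, Sm u → PW.sq u ≤ 2 → 0 ≤ YY C3 d z X Z u ∧
      ∑ m, ∑ s, ∫ x, (rep x - ∑ k, pot X Z (x k)) *
        (Pg (fun y => gm m L y - gN X m (d / 8) y) (u s) x ^ 2 +
          Pg (fun y => gm m L y - gN X m (d / 8) y)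
            (Pg (fun y => gm m L y - gN X m (d / 8) y) (u s)) x * u s x) ≤
      C2 * (YY C3 d z X Z u + z * n + (pair u + one (pot X Z) u) / L) := by
  intro d hd hd1
  obtain ⟨C0, C3, hC0, hC3, hL⟩ := hLOC d hd hd1
  obtain ⟨CV, hCV, hV⟩ := hV2R d hd hd1
  refine ⟨C3, CV * (C3 + 1) + CV, hC3, by positivity, ?_⟩
  intro z L n M X Z hD hL1 hXL
  have hd8 : 0 < d / 8 := by positivity
  have hLp : 0 < L := lt_of_lt_of_le one_pos hL1
  have hsc : ∀ m, Scale (fun y => gm m L y - gN X m (d / 8) y) (K0 + K1) (d / 8) := fun m =>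
    mrz_scale (hC m L hLp).1 (hF M X d (d / 8) m hd hD.sep hd8 (by linarith)).1 hd8
      (by linarith) (by linarith)
  refine ⟨hsc, ?_⟩
  intro u hu hsq
  obtain ⟨hLx, hLu⟩ := hL z n M X Z hD
  obtain ⟨hY0, hYi, hY⟩ := hLu u hu hsq
  refine ⟨hY0, ?_⟩
  have hZ0 : ∀ j, 0 ≤ Z j := hD.nuc.1
  have hz1 := hD.z1
  -- near the nuclei
  have hnear : ∀ m j y, nr (y - X j) < d / 8 → ∀ i,
      pd i (fun y => gm m L y - gN X m (d / 8) y) y = 0 := by
    intro m j y hy i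
    rw [mrz_pd_sub (hC m L hLp).1.sm (hF M X d (d / 8) m hd hD.sep hd8 (by linarith)).1.sm]
    have h1 : nr y < L := by
      have := mrz_tri y (X j)
      have h2 := hXL j
      have h3 : 0 ≤ nr (X j) := INL_nr0 _
      linarith
    show pd i (gm m L) y - pd i (gN X m (d / 8)) y = 0
    rw [mrz_gm (hC m L hLp).2 h1 i, (hF M X d (d / 8) m hd hD.sep hd8 (by linarith)).2 j y hy i,
      sub_self]
  have hdbs := fun m => hDBS n M X Z (fun y => gm m L y - gN X m (d / 8) y) (d / 8) u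
    (hsc m).sm (hsc m).cs hd8 (hnear m) hu
  have e1 : ∑ m, ∑ s, ∫ x, (rep x - ∑ k, pot X Z (x k)) *
        (Pg (fun y => gm m L y - gN X m (d / 8) y) (u s) x ^ 2 +
          Pg (fun y => gm m L y - gN X m (d / 8) y)
            (Pg (fun y => gm m L y - gN X m (d / 8) y) (u s)) x * u s x) =
      1 / 2 * ∑ s, ∫ x, (∑ m, D2 X Z (fun y => gm m L y - gN X m (d / 8) y) x) * u s x ^ 2 := by
    rw [Finset.sum_congr rfl fun m _ => (hdbs m).2, ← Finset.mul_sum, Finset.sum_comm]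
    congr 1
    refine Finset.sum_congr rfl fun s _ => ?_
    rw [← integral_finsetSum _ fun m _ => (hdbs m).1 s]
    refine integral_congr_ae (Filter.Eventually.of_forall fun x => ?_)
    exact (Finset.sum_mul _ _ _).symm
  rw [e1]
  have e2 : ∑ s, ∫ x, (∑ m, D2 X Z (fun y => gm m L y - gN X m (d / 8) y) x) * u s x ^ 2 ≤
      CV * (C0 * ∑ s, ∫ x, (Vc X Z x + C0 * (z ^ 2 * M + z * ∑ k, near1 X d (x k))) * u s x ^ 2) +
      CV * (z * n) * PW.sq u + CV / L * (pair u + one (pot X Z) u) := by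
    unfold PW.sq pair one
    rw [← Finset.sum_add_distrib, Finset.mul_sum, Finset.mul_sum, Finset.mul_sum, Finset.mul_sum,
      ← Finset.sum_add_distrib, ← Finset.sum_add_distrib]
    refine Finset.sum_le_sum fun s _ => ?_
    have i0 : Integrable (fun x : Cf n =>
        (∑ m, D2 X Z (fun y => gm m L y - gN X m (d / 8) y) x) * u s x ^ 2) := by
      have := integrable_finsetSum (Finset.univ : Finset (Fin 3)) fun m _ => (hdbs m).1 s
      refine this.congr (Filter.Eventually.of_forall fun x => ?_)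
      exact (Finset.sum_mul _ _ _).symm
    obtain ⟨j1, j2, _, _⟩ := hI n M X Z (u s) (u s) (hu s).1 (hu s).2 (hu s).1 (hu s).2
    have e3 : (fun x : Cf n => (∑ k, pot X Z (x k)) * (u s x * u s x)) =
        fun x : Cf n => (∑ k, pot X Z (x k)) * u s x ^ 2 := by
      funext x; rw [pow_two]
    have e4 : (fun x : Cf n => rep x * (u s x * u s x)) =
        fun x : Cf n => rep x * u s x ^ 2 := by
      funext x; rw [pow_two]
    rw [e3] at j1
    rw [e4] at j2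
    have i3 : Integrable (fun x : Cf n => u s x ^ 2) :=
      ((hu s).1.continuous.memLp_of_hasCompactSupport (hu s).2 (p := 2)).integrable_sq
    have i5 := hYi s
    have k1 : Integrable (fun x : Cf n => CV * (C0 *
        ((Vc X Z x + C0 * (z ^ 2 * M + z * ∑ k, near1 X d (x k))) * u s x ^ 2))) :=
      (i5.const_mul C0).const_mul CV
    have k2 : Integrable (fun x : Cf n => CV * (z * n) * u s x ^ 2) := i3.const_mul _
    have k3 : Integrable (fun x : Cf n => CV / L * (rep x * u s x ^ 2 +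
        (∑ k, pot X Z (x k)) * u s x ^ 2)) := (j2.add j1).const_mul _
    have k12 : Integrable (fun x : Cf n => CV * (C0 *
        ((Vc X Z x + C0 * (z ^ 2 * M + z * ∑ k, near1 X d (x k))) * u s x ^ 2)) +
        CV * (z * n) * u s x ^ 2) := k1.add k2
    rw [← integral_add j2 j1, ← integral_const_mul, ← integral_const_mul, ← integral_const_mul,
      ← integral_const_mul, ← integral_add k1 k2, ← integral_add k12 k3]
    refine integral_mono_ae i0 (k12.add k3) ?_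
    filter_upwards [hAED n M X] with x hx
    have v1 := hV z L n M X Z x hD hL1 hXL hx
    have v2 := (hLx x hx).2.2
    have v3 : CV * Loc d z X Z x ≤
        CV * (C0 * (Vc X Z x + C0 * (z ^ 2 * M + z * ∑ k, near1 X d (x k))) +
          z * n) := mul_le_mul_of_nonneg_left (by
            have hzn : 0 ≤ z * (n : ℝ) := mul_nonneg (by linarith) (Nat.cast_nonneg _)
            linarith) hCV.le
    have v4 := mul_le_mul_of_nonneg_right (v1.trans (add_le_add v3 le_rfl)) (sq_nonneg (u s x))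
    show (∑ m, D2 X Z (fun y => gm m L y - gN X m (d / 8) y) x) * u s x ^ 2 ≤
      CV * (C0 * ((Vc X Z x + C0 * (z ^ 2 * M + z * ∑ k, near1 X d (x k))) * u s x ^ 2)) +
      CV * (z * n) * u s x ^ 2 + CV / L * (rep x * u s x ^ 2 +
        (∑ k, pot X Z (x k)) * u s x ^ 2)
    refine v4.trans (le_of_eq ?_)
    ring
  have hsq0 : 0 ≤ PW.sq u := Finset.sum_nonneg fun s _ => integral_nonneg fun x => sq_nonneg _
  have hzΛ : 0 ≤ z * n := by positivity
  have hp0 := bid_pair u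
  have ho0 : 0 ≤ one (pot X Z) u := bid_one _ (BIDM_potnn X hZ0) u
  have hP : 0 ≤ (pair u + one (pot X Z) u) / L := by positivity
  have e5 : CV / L * (pair u + one (pot X Z) u) = CV * ((pair u + one (pot X Z) u) / L) := by
    ring
  rw [e5] at e2
  have e6 := mul_le_mul_of_nonneg_left hY hCV.le
  have e7 : CV * (z * n) * PW.sq u ≤ CV * (z * n) * 2 :=
    mul_le_mul_of_nonneg_left hsq (by positivity)
  generalize ∑ s, ∫ x, (∑ m, D2 X Z (fun y => gm m L y - gN X m (d / 8) y) x) * u s x ^ 2 = S1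
    at e2 ⊢
  generalize YY C3 d z X Z u = Y at *
  generalize (pair u + one (pot X Z) u) / L = P at *
  generalize z * (n : ℝ) = W at *
  have f1 : 0 ≤ CV * Y := by positivity
  have f2 : 0 ≤ CV * W := by positivity
  have f3 : 0 ≤ CV * P := by positivity
  have f4 : 0 ≤ CV * C3 * Y := by positivity
  have f5 : 0 ≤ CV * C3 * W := by positivity
  have f6 : 0 ≤ CV * C3 * P := by positivity
  nlinarith

/-- row MRZ0 -/
theorem MRZ0 (hDBS : ST_DBS) (hV2R : ST_V2R0) (hLOC : ST_LOCY) (hFLD : ST_FLD) (hCUT : ST_CUT)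
    (h1 : ST_CSQM) (h2 : ST_STB) (h3 : ST_AIDM) (h4 : ST_CIDM) (hKIN : ST_KINM) (h7 : ST_ERR)
    (_hQ : ST_QHM) (hI : ST_INTM) (hAED : ST_AED) (hPAN : ST_PAN) (_hIBP : ST_IBP) : ST_MRZ0 := by
  obtain ⟨K0, hK0, hC, -⟩ := hCUT
  obtain ⟨K1, hK1, hFL⟩ := hFLD
  have hC' : ∀ (m : Fin 3) (R : ℝ), 0 < R →
      Scale (gm m R) K0 R ∧ (∀ y, nr y ≤ R → gm m R y = y m) := fun m R hR =>
    ⟨(hC m R hR).1, (hC m R hR).2.1⟩
  have hF' : ∀ (M : ℕ) (X : Fin M → R3) (d ρ : ℝ) (m : Fin 3), 0 < d → Sep X d → 0 < ρ →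
      ρ ≤ d / 4 → Scale (gN X m ρ) K1 ρ ∧
      (∀ j y, nr (y - X j) < ρ → ∀ i, pd i (gN X m ρ) y = if i = m then 1 else 0) :=
    fun M X d ρ m hd hS hρ hρd =>
      ⟨(hFL M X d ρ ρ m hd hS hρ le_rfl hρd).1, (hFL M X d ρ ρ m hd hS hρ le_rfl hρd).2.2.1⟩
  obtain ⟨CH, hCH, hH⟩ := mrz_near_one (st_HLOC st_HA3)
  obtain ⟨CK, hCK, hKin⟩ := hKIN
  intro d hd hd1
  obtain ⟨C3, C2, hC3, hC2, hD2⟩ := mrz0_D2 hDBS hV2R hLOC hI hAED hK0 hK1 hC' hF' d hd hd1
  obtain ⟨K, hKdef⟩ : ∃ K, K = K0 + K1 := ⟨_, rfl⟩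
  have hK : 1 ≤ K := by rw [hKdef]; linarith
  have hr : 0 < d / 8 := by positivity
  obtain ⟨A0, hA0⟩ : ∃ A0 : ℝ, A0 = 1 / (d / 8) ^ 2 + 2 / (d / 8) ^ 4 + C2 := ⟨_, rfl⟩
  have hA0p : 0 < A0 := by rw [hA0]; positivity
  refine ⟨(3 * CK + 2) * K ^ 4 * (2 * A0) + C3, by positivity, ?_⟩
  intro z L M0' E n NN X Z hD hLow hL1 hXL
  have hz1 := hD.z1
  have hZ : ∀ j, 0 ≤ Z j := hD.nuc.1
  have hLp : 0 < L := lt_of_lt_of_le one_pos hL1
  obtain ⟨hsc, hmain⟩ := hD2 z L n NN X Z hD hL1 hXL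
  rw [← hKdef] at hsc
  obtain ⟨g, hgdef⟩ : ∃ g : Fin 3 → R3 → ℝ, g = fun m y => gm m L y - gN X m (d / 8) y :=
    ⟨_, rfl⟩
  have hgm : ∀ m, (fun y => gm m L y - gN X m (d / 8) y) = g m := fun m => by rw [hgdef]
  simp only [hgm] at hsc hmain ⊢
  choose Cm hCm hE using fun m => h7 n (g m) (hsc m).sm (hsc m).cs
  obtain ⟨C1, hC1, hCle⟩ : ∃ C1 : ℝ, 0 < C1 ∧ ∀ m, Cm m ≤ C1 := by
    refine ⟨Cm 0 + Cm 1 + Cm 2, by linarith [hCm 0, hCm 1, hCm 2], fun m => ?_⟩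
    fin_cases m <;> simp <;> linarith [hCm 0, hCm 1, hCm 2]
  obtain ⟨M0, hM0, hMM⟩ : ∃ M0 : ℝ, 0 ≤ M0 ∧ M0' ≤ M0 := ⟨|M0'|, abs_nonneg _, le_abs_self _⟩
  obtain ⟨D, hDdef⟩ : ∃ D, D = Real.sqrt (C1 * (2 * M0 + 2)) := ⟨_, rfl⟩
  have hDD : 0 ≤ D := by rw [hDdef]; exact Real.sqrt_nonneg _
  have hn0 : (0:ℝ) ≤ n := Nat.cast_nonneg _
  have hM00 : (0:ℝ) ≤ NN := Nat.cast_nonneg _
  -- bound of `YY`
  obtain ⟨N1, hN1⟩ : ∃ N1 : ℝ, N1 = CH * (M0 + n * 2 / d ^ 2) + n * NN * 2 := ⟨_, rfl⟩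
  have hN10 : 0 ≤ N1 := by rw [hN1]; positivity
  obtain ⟨Ym, hYm⟩ : ∃ Ym : ℝ, Ym = M0 + |nucR X Z| * 2 + C3 * (z ^ 2 * NN + z * N1) := ⟨_, rfl⟩
  have hYm0 : 0 ≤ Ym := by rw [hYm]; positivity
  obtain ⟨W, hW⟩ : ∃ W : ℝ, W = z * n := ⟨_, rfl⟩
  have hW0 : 0 ≤ W := by rw [hW]; positivity
  have hWn : (n : ℝ) ≤ W := by
    rw [hW]
    nlinarith
  obtain ⟨X0, hX0⟩ : ∃ X0 : ℝ, X0 = C2 * (Ym + W + (M0 + M0) / L) := ⟨_, rfl⟩
  have hX00 : 0 ≤ X0 := by rw [hX0]; positivity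
  refine ⟨3 * K ^ 2 * (2 * n) * (0 + 3 * D) +
    D * (3 * CK * K ^ 2 * (M0 / (d / 8) ^ 2 + 2 * n / (d / 8) ^ 4) + 2 * X0 +
      (0 + 3 * D)) + 4 * D * (C1 * (M0 + 2)) + 1, by positivity, ?_⟩
  intro u hu hA hsq hkin hpair hone hdd hres m
  have hh := INLJ_h2 hI X Z E hu
  have ρ0 : 0 ≤ Real.sqrt (resM X Z E u) := Real.sqrt_nonneg _
  have ρ1 : Real.sqrt (resM X Z E u) ≤ 1 := Real.sqrt_le_one.2 hres
  have hcau : ∀ f : Wf n, Sm f → PW.sq f ≤ C1 * (2 * M0 + 2) →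
      |∑ s, ∫ x, f s x * (hmM X Z (u s) x - E * u s x)| ≤ D * Real.sqrt (resM X Z E u) := by
    intro f hf hs
    refine (INL_cauchy hf hh).trans ?_
    rw [hDdef]
    exact mul_le_mul (Real.sqrt_le_sqrt hs) le_rfl (Real.sqrt_nonneg _) (Real.sqrt_nonneg _)
  have sq0 : ∀ v : Wf n, 0 ≤ PW.sq v := fun v =>
    Finset.sum_nonneg fun s _ => integral_nonneg fun x => sq_nonneg _
  have kin0 : 0 ≤ kin u := bid_kin u
  have dd0 : 0 ≤ dd u := Finset.sum_nonneg fun k _ => Finset.sum_nonneg fun i _ =>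
    Finset.sum_nonneg fun l _ => Finset.sum_nonneg fun m _ => sq0 _
  have pair0 : 0 ≤ pair u := bid_pair u
  have on0 : 0 ≤ one (pot X Z) u := INL_one0 (fun y => INLJ_pot0 X Z hZ y) u
  have hSc : IsClosed (Set.univ : Set R3) := isClosed_univ
  have hoff : ∀ (m : Fin 3) (y : R3), y ∉ (Set.univ : Set R3) → ∀ i, pd i (g m) y = 0 :=
    fun m y hy => absurd (Set.mem_univ y) hy
  have ν0 : 0 ≤ one (ind Set.univ) u := INL_one0 (fun y => ((INLJ_ind _ hSc).2 y).1) u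
  have ν1 : one (ind Set.univ) u ≤ 2 * n := by
    refine (INLJ_one1 _ hSc hu).trans ?_
    nlinarith
  have su0 := sq0 u
  have SF : ∀ m, Sm (fun s => Fg (g m) (u s)) := fun m => (h2 n (g m) u (hsc m).sm hu).1
  have SP : ∀ m, Sm (fun s => Pg (g m) (u s)) := fun m => (h2 n (g m) u (hsc m).sm hu).2.1
  have AF : ∀ m, Anti (fun s => Fg (g m) (u s)) := fun m =>
    ((h2 n (g m) u (hsc m).sm hu).2.2 hA).1
  have AP : ∀ m, Anti (fun s => Pg (g m) (u s)) := fun m =>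
    ((h2 n (g m) u (hsc m).sm hu).2.2 hA).2
  have SFF : ∀ m, Sm (fun s => Fg (g m) (Fg (g m) (u s))) := fun m =>
    (h2 n (g m) (fun s => Fg (g m) (u s)) (hsc m).sm (SF m)).1
  have SFP : ∀ m, Sm (fun s => Fg (g m) (Pg (g m) (u s))) := fun m =>
    (h2 n (g m) (fun s => Pg (g m) (u s)) (hsc m).sm (SP m)).1
  have SPP : ∀ m, Sm (fun s => Pg (g m) (Pg (g m) (u s))) := fun m =>
    (h2 n (g m) (fun s => Pg (g m) (u s)) (hsc m).sm (SP m)).2.1
  have bd : ∀ (m : Fin 3) (y : ℝ), 0 ≤ y → y ≤ 2 * M0 + 2 → Cm m * y ≤ C1 * (2 * M0 + 2) :=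
    fun m y hy0 hy => mul_le_mul (hCle m) hy hy0 hC1.le
  have a1 : ∀ m, |∑ s, ∫ x, Fg (g m) (Fg (g m) (u s)) x * (hmM X Z (u s) x - E * u s x)| ≤
      D * Real.sqrt (resM X Z E u) := fun m =>
    hcau _ (SFF m) ((hE m u hu).1.trans (bd m _ su0 (by linarith)))
  have a2 : ∀ m, |∑ s, ∫ x, Fg (g m) (Pg (g m) (u s)) x * (hmM X Z (u s) x - E * u s x)| ≤
      D * Real.sqrt (resM X Z E u) := fun m =>
    hcau _ (SFP m) ((hE m u hu).2.2.1.trans (bd m _ (by linarith) (by linarith)))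
  have a3 : ∀ m, |∑ s, ∫ x, Pg (g m) (Pg (g m) (u s)) x * (hmM X Z (u s) x - E * u s x)| ≤
      D * Real.sqrt (resM X Z E u) := fun m =>
    hcau _ (SPP m) ((hE m u hu).2.2.2.trans (bd m _ (by linarith) (by linarith)))
  have hP0 : PW.sq (fun s => Pg (g m) (u s)) ≤ C1 * (M0 + 2) :=
    (hE m u hu).2.1.trans (mul_le_mul (hCle m) (by linarith) (by linarith) hC1.le)
  have b0 : ∀ m, 0 ≤ QM X Z (fun s => Pg (g m) (u s)) - E * PW.sq (fun s => Pg (g m) (u s)) :=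
    fun m => sub_nonneg.2 (hLow _ (SP m) (AP m))
  obtain ⟨hY0, hYmain⟩ := hmain u hu hsq
  rw [← hW] at hYmain ⊢
  -- the sum over `m`
  have hbin : ∑ m, (QM X Z (fun s => Pg (g m) (u s)) - E * PW.sq (fun s => Pg (g m) (u s))) ≤
      -(∑ m, ∑ s, ∫ x, Pg (g m) (Pg (g m) (u s)) x * (hmM X Z (u s) x - E * u s x)) +
      3 * (CK * K ^ 2 * (kin u / (d / 8) ^ 2 + one (ind Set.univ) u / (d / 8) ^ 4)) +
      C2 * (YY C3 d z X Z u + W + (pair u + one (pot X Z) u) / L) := by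
    rw [Finset.sum_congr rfl fun m _ => mrz_A hPAN h2 hI X Z E (hsc m).sm hu,
      Finset.sum_add_distrib, Finset.sum_add_distrib, Finset.sum_neg_distrib]
    have hk : ∑ m, (kin (fun s => Pg (g m) (u s)) -
        ∑ s, ∫ x, Pg (g m) (Pg (g m) (u s)) x * ∑ k, ∑ i, dv k i (dv k i (u s)) x) ≤
        3 * (CK * K ^ 2 * (kin u / (d / 8) ^ 2 + one (ind Set.univ) u / (d / 8) ^ 4)) := by
      calc _ ≤ ∑ _m : Fin 3, CK * K ^ 2 *
            (kin u / (d / 8) ^ 2 + one (ind Set.univ) u / (d / 8) ^ 4) :=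
          Finset.sum_le_sum fun m _ =>
            hKin n (g m) K (d / 8) Set.univ u (hsc m) hr hSc (hoff m) hu
        _ = _ := by simp
    linarith
  have hsing := Finset.single_le_sum (f := fun m => QM X Z (fun s => Pg (g m) (u s)) -
    E * PW.sq (fun s => Pg (g m) (u s))) (fun m _ => b0 m) (Finset.mem_univ m)
  have herr : -(∑ m, ∑ s, ∫ x, Pg (g m) (Pg (g m) (u s)) x * (hmM X Z (u s) x - E * u s x)) ≤
      3 * (D * Real.sqrt (resM X Z E u)) := by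
    rw [← Finset.sum_neg_distrib]
    calc ∑ m, -(∑ s, ∫ x, Pg (g m) (Pg (g m) (u s)) x * (hmM X Z (u s) x - E * u s x)) ≤
        ∑ _m : Fin 3, D * Real.sqrt (resM X Z E u) := Finset.sum_le_sum fun m _ => by
          have := (abs_le.1 (a3 m)).1
          linarith
      _ = _ := by simp
  have hS0 : 0 ≤ kin u / (d / 8) ^ 2 + one (ind Set.univ) u / (d / 8) ^ 4 := by
    positivity
  have hS1 : kin u / (d / 8) ^ 2 + one (ind Set.univ) u / (d / 8) ^ 4 ≤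
      M0 / (d / 8) ^ 2 + 2 * n / (d / 8) ^ 4 := by
    have k1 := hkin.trans hMM
    gcongr
  -- upper bound of `YY`
  have hone1 : one (near1 X d) u ≤ N1 := by
    have k1 := hH n NN X d u hd hD.sep hu
    have k2 : CH * (kin u + n * PW.sq u / d ^ 2) ≤ CH * (M0 + n * 2 / d ^ 2) := by
      have := hkin.trans hMM
      gcongr
    have k3 : (n : ℝ) * NN * PW.sq u ≤ n * NN * 2 := by gcongr
    rw [hN1]
    linarith
  have hYle : YY C3 d z X Z u ≤ Ym := by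
    unfold YY QM
    rw [hYm]
    have k1 : nucR X Z * PW.sq u ≤ |nucR X Z| * 2 :=
      (mul_le_mul_of_nonneg_right (le_abs_self _) su0).trans
        (mul_le_mul_of_nonneg_left hsq (abs_nonneg _))
    have k2 : C3 * (z ^ 2 * NN + z * one (near1 X d) u) ≤ C3 * (z ^ 2 * NN + z * N1) := by
      gcongr
    linarith [hpair.trans hMM]
  obtain ⟨Xq, hXq⟩ : ∃ Xq : ℝ, Xq = C2 * (YY C3 d z X Z u + W +
      (pair u + one (pot X Z) u) / L) := ⟨_, rfl⟩
  have hXq0 : 0 ≤ Xq := by rw [hXq]; positivity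
  have hXq1 : Xq ≤ X0 := by
    rw [hXq, hX0]
    have k1 := hpair.trans hMM
    have k2 := hone.trans hMM
    gcongr
  rw [← hXq] at hbin
  have hcs := h1 n NN X Z E (fun s => Fg (g m) (u s)) (fun s => Pg (g m) (u s)) hLow (SF m)
    (AF m) (SP m) (AP m)
  rw [h4 n NN X Z E (g m) u (hsc m).sm hu, h3 n NN X Z E (g m) u (hsc m).sm hu] at hcs
  have hfin := INL_fin hcs (a1 m) (a2 m)
    ⟨INL_one0 (fun y => Finset.sum_nonneg fun i _ => sq_nonneg _) u,
      INLJ_grd (hsc m) Set.univ hSc (hoff m) hu⟩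
    (C := 3 * CK) (S := kin u / (d / 8) ^ 2 + one (ind Set.univ) u / (d / 8) ^ 4)
    (X := Xq) (q := 0)
    ⟨b0 m, by
      have := hsing.trans hbin
      have e : 3 * CK * K ^ 2 * (kin u / (d / 8) ^ 2 + one (ind Set.univ) u / (d / 8) ^ 4) =
        3 * (CK * K ^ 2 * (kin u / (d / 8) ^ 2 + one (ind Set.univ) u / (d / 8) ^ 4)) := by ring
      rw [e]
      linarith [this, herr]⟩ ⟨ρ0, ρ1⟩ ⟨sq0 _, hP0⟩ ⟨ν0, ν1⟩ ⟨hS0, hS1⟩
    ⟨hXq0, hXq1⟩ hK (by positivity) hDD le_rfl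
  refine hfin.trans ?_
  -- the final comparison
  obtain ⟨P, hP⟩ : ∃ P : ℝ, P = (pair u + one (pot X Z) u) / L := ⟨_, rfl⟩
  have hPP : 0 ≤ P := by rw [hP]; positivity
  have g1 : kin u / (d / 8) ^ 2 + one (ind Set.univ) u / (d / 8) ^ 4 + Xq ≤
      A0 * (kin u + YY C3 d z X Z u + W + P) := by
    rw [hXq, ← hP, hA0]
    have q1 : one (ind Set.univ) u / (d / 8) ^ 4 ≤ 2 / (d / 8) ^ 4 * W := by
      rw [div_mul_eq_mul_div]
      refine div_le_div_of_nonneg_right ?_ (by positivity)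
      linarith
    have q2 : kin u / (d / 8) ^ 2 = 1 / (d / 8) ^ 2 * kin u := by ring
    rw [q2]
    have r1 : 0 < 1 / (d / 8) ^ 2 := by positivity
    have r2 : 0 < 2 / (d / 8) ^ 4 := by positivity
    generalize 1 / (d / 8) ^ 2 = α at *
    generalize 2 / (d / 8) ^ 4 = β at *
    generalize YY C3 d z X Z u = Y at *
    have s1 : 0 ≤ α * Y := by positivity
    have s2 : 0 ≤ α * W := by positivity
    have s3 : 0 ≤ α * P := by positivity
    have s4 : 0 ≤ β * kin u := by positivity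
    have s5 : 0 ≤ β * Y := by positivity
    have s6 : 0 ≤ β * P := by positivity
    have s7 : 0 ≤ C2 * kin u := by positivity
    nlinarith
  have hYmono : YY C3 d z X Z u ≤ YY ((3 * CK + 2) * K ^ 4 * (2 * A0) + C3) d z X Z u := by
    unfold YY
    have k1 : 0 ≤ z ^ 2 * (NN : ℝ) + z * one (near1 X d) u := by
      have : 0 ≤ one (near1 X d) u := INL_one0 (fun y => by
        unfold near1
        refine Finset.sum_nonneg fun j _ => ?_
        split_ifs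
        · exact div_nonneg zero_le_one (INL_nr0 _)
        · exact le_rfl) u
      positivity
    have k2 : C3 ≤ (3 * CK + 2) * K ^ 4 * (2 * A0) + C3 := by
      have : 0 ≤ (3 * CK + 2) * K ^ 4 * (2 * A0) := by positivity
      linarith
    have k3 := mul_le_mul_of_nonneg_right k2 k1
    linarith
  have g2 : (3 * CK + 2) * K ^ 4 * (one (ind Set.univ) u *
      (kin u / (d / 8) ^ 2 + one (ind Set.univ) u / (d / 8) ^ 4 + Xq)) ≤
      ((3 * CK + 2) * K ^ 4 * (2 * A0) + C3) * (n * (kin u +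
        YY ((3 * CK + 2) * K ^ 4 * (2 * A0) + C3) d z X Z u + W + P)) := by
    have t1 : one (ind Set.univ) u *
        (kin u / (d / 8) ^ 2 + one (ind Set.univ) u / (d / 8) ^ 4 + Xq) ≤
        2 * n * (A0 * (kin u + YY C3 d z X Z u + W + P)) :=
      mul_le_mul ν1 g1 (by positivity) (by positivity)
    have t2 := mul_le_mul_of_nonneg_left t1 (show 0 ≤ (3 * CK + 2) * K ^ 4 by positivity)
    refine t2.trans ?_
    have t3 : (3 * CK + 2) * K ^ 4 * (2 * n * (A0 * (kin u + YY C3 d z X Z u + W + P))) =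
        (3 * CK + 2) * K ^ 4 * (2 * A0) * (n * (kin u + YY C3 d z X Z u + W + P)) := by ring
    rw [t3]
    have t4 : (n : ℝ) * (kin u + YY C3 d z X Z u + W + P) ≤
        n * (kin u + YY ((3 * CK + 2) * K ^ 4 * (2 * A0) + C3) d z X Z u + W + P) :=
      mul_le_mul_of_nonneg_left (by linarith) hn0
    have t5 : 0 ≤ (n : ℝ) * (kin u + YY C3 d z X Z u + W + P) := by positivity
    exact mul_le_mul (by linarith) t4 t5 (by positivity)
  have g3 : YY ((3 * CK + 2) * K ^ 4 * (2 * A0) + C3) d z X Z u = YY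
      ((3 * CK + 2) * K ^ 4 * (2 * A0) + C3) d z X Z u := rfl
  rw [← hP]
  refine add_le_add g2 ?_
  refine mul_le_mul_of_nonneg_right ?_ ρ0
  linarith

end Pool.Agent.Helper72.HW
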